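import Pool.Agent.W586.SK.Stm

/-!
Project SK, part TRANS: spreading lowers a 1-symmetric log-concave density.
-/

set_option autoImplicit false

namespace Pool.Agent.W724.SK

open Pool.Agent.W586.SK

section

variable {n : ℕ} {ρ : E n → ℝ}

/-- the density as a function of the coordinates -/
def rr (ρ : E n → ℝ) (a : Fin n → ℝ) : ℝ := ρ (WithLp.toLp 2 a)

theorem rr_inv (h : Sy ρ) (σ : Equiv.Perm (Fin n)) (a b : Fin n → ℝ)
    (hab : ∀ i, |b i| = |a (σ i)|) : rr ρ b = rr ρ a :=
  h.inv σ _ _ hab

theorem mid (h : Sy ρ) {a b z : Fin n → ℝ} {t : ℝ} (h0 : 0 ≤ t) (h1 : t ≤ 1)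
    (hab : rr ρ b = rr ρ a) (hz : ∀ j, z j = (1 - t) * a j + t * b j) : rr ρ a ≤ rr ρ z := by
  rcases h0.eq_or_lt with rfl | h0
  · have : z = a := by
      funext j
      rw [hz j]
      ring
    rw [this]
  rcases h1.eq_or_lt with rfl | h1
  · have : z = b := by
      funext j
      rw [hz j]
      ring
    rw [this, hab]
  have hl := h.logc (WithLp.toLp 2 a) (WithLp.toLp 2 b) t h0 h1
  have e1 : ((1 - t) • WithLp.toLp 2 a + t • WithLp.toLp 2 b : E n) = WithLp.toLp 2 z := by
    ext j
    show (1 - t) * a j + t * b j = z j
    rw [hz j]
  rw [e1] at hl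
  change rr ρ a ^ (1 - t) * rr ρ b ^ t ≤ rr ρ z at hl
  rw [hab] at hl
  have hn : 0 ≤ rr ρ a := h.nonneg _
  rcases hn.eq_or_lt with h2 | h2
  · rw [← h2]
    exact h.nonneg _
  · rw [← Real.rpow_add h2] at hl
    have : (1 - t + t : ℝ) = 1 := by ring
    rw [this, Real.rpow_one] at hl
    exact hl

theorem mono1 (h : Sy ρ) (y : Fin n → ℝ) (k : Fin n) (s : ℝ) (hs : |s| ≤ |y k|) :
    rr ρ y ≤ rr ρ (Function.update y k s) := by
  by_cases hy : y k = 0
  · have hs0 : s = 0 := by
      rw [hy, abs_zero] at hs
      exact abs_eq_zero.1 (le_antisymm hs (abs_nonneg s))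
    have : Function.update y k s = y := by
      rw [hs0, ← hy, Function.update_eq_self]
    rw [this]
  have hb : rr ρ (Function.update y k (-(y k))) = rr ρ y := by
    apply rr_inv h (Equiv.refl _)
    intro i
    by_cases hi : i = k
    · subst hi
      rw [Function.update_self, abs_neg]
      rfl
    · rw [Function.update_of_ne hi]
      rfl
  have hq : |s / y k| ≤ 1 := by
    rw [abs_div]
    exact (div_le_one (abs_pos.2 hy)).2 hs
  rw [abs_le] at hq
  refine mid h (t := (1 - s / y k) / 2) (by linarith [hq.2]) (by linarith [hq.1]) hb ?_
  intro j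
  by_cases hj : j = k
  · subst hj
    rw [Function.update_self, Function.update_self]
    field_simp
    ring
  · rw [Function.update_of_ne hj, Function.update_of_ne hj]
    ring

theorem mono (h : Sy ρ) (x y : Fin n → ℝ) (hxy : ∀ k, |x k| ≤ |y k|) : rr ρ y ≤ rr ρ x := by
  classical
  have key : ∀ S : Finset (Fin n), rr ρ y ≤ rr ρ (fun k => if k ∈ S then x k else y k) := by
    intro S
    induction S using Finset.induction_on with
    | empty => simp
    | insert k S hk ih =>
      refine ih.trans ?_
      have := mono1 h (fun k => if k ∈ S then x k else y k) k (x k) (by simp [hk, hxy k])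
      refine this.trans (le_of_eq ?_)
      congr 1
      funext j
      by_cases hj : j = k
      · subst hj
        simp
      · rw [Function.update_of_ne hj]
        simp [hj]
  have := key Finset.univ
  simpa using this

theorem transfer (h : Sy ρ) (z : Fin n → ℝ) (i j : Fin n) (hij : j ≠ i) (c : ℝ) (hc0 : 0 ≤ c)
    (hc1 : c ≤ 1) (hz : c ≠ 0 → |z j| ≤ z i) :
    rr ρ (Function.update (Function.update z i (z i + c * |z j|)) j ((1 - c) * z j)) ≤ rr ρ z := by
  obtain ⟨d, hd⟩ : ∃ d, d = c * |z j| := ⟨_, rfl⟩
  rw [← hd]
  have hd0 : 0 ≤ d := by rw [hd]; positivity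
  rcases hd0.eq_or_lt with hd0 | hd0
  · have h1 : c * z j = 0 := by
      have h2 : c * |z j| = 0 := by rw [← hd, ← hd0]
      rcases mul_eq_zero.1 h2 with h3 | h3
      · rw [h3, zero_mul]
      · rw [abs_eq_zero.1 h3, mul_zero]
    apply le_of_eq
    congr 1
    funext k
    by_cases hk : k = j
    · subst hk
      rw [Function.update_self]
      linear_combination -h1
    · rw [Function.update_of_ne hk]
      by_cases hk' : k = i
      · subst hk'
        rw [Function.update_self, ← hd0, add_zero]
      · rw [Function.update_of_ne hk']
  have hc : c ≠ 0 := by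
    rintro rfl
    rw [zero_mul] at hd
    exact hd0.ne' hd
  have hzj : z j ≠ 0 := by
    intro h0
    rw [h0, abs_zero, mul_zero] at hd
    exact hd0.ne' hd
  have hle := hz hc
  have hdj : d ≤ |z j| := by
    rw [hd]
    exact mul_le_of_le_one_left (abs_nonneg _) hc1
  obtain ⟨ε, hε, hεz⟩ : ∃ ε : ℝ, |ε| = 1 ∧ z j = ε * |z j| := by
    refine ⟨z j / |z j|, ?_, ?_⟩
    · rw [abs_div, abs_abs]
      exact div_self (abs_pos.2 hzj).ne'
    · field_simp
  have hcz : (1 - c) * z j = ε * (|z j| - d) := by
    rw [hd]
    linear_combination (1 - c) * hεz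
  rw [hcz]
  set z' : Fin n → ℝ := Function.update (Function.update z i (z i + d)) j (ε * (|z j| - d)) with hz'
  let z'' : Fin n → ℝ := Function.update (Function.update z i (|z j| - d)) j (ε * (z i + d))
  have hswap : rr ρ z'' = rr ρ z' := by
    apply rr_inv h (Equiv.swap i j)
    intro k
    by_cases hk : k = j
    · subst hk
      rw [Equiv.swap_apply_right]
      simp only [z'', hz']
      rw [Function.update_self, Function.update_of_ne hij.symm, Function.update_self, abs_mul, hε,
        one_mul]
    · by_cases hk' : k = i
      · subst hk'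
        rw [Equiv.swap_apply_left]
        simp only [z'', hz']
        rw [Function.update_self, Function.update_of_ne hij.symm, Function.update_self, abs_mul, hε,
          one_mul]
      · rw [Equiv.swap_apply_of_ne_of_ne hk' hk]
        simp only [z'', hz']
        rw [Function.update_of_ne hk, Function.update_of_ne hk', Function.update_of_ne hk,
          Function.update_of_ne hk']
  have hden : 0 < z i - |z j| + 2 * d := by linarith
  obtain ⟨t, ht⟩ : ∃ t, t = d / (z i - |z j| + 2 * d) := ⟨_, rfl⟩
  have htd : t * (z i - |z j| + 2 * d) = d := by rw [ht]; exact div_mul_cancel₀ _ hden.ne'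
  refine mid h (t := t) (by rw [ht]; positivity) ?_ hswap ?_
  · rw [ht, div_le_one hden]
    linarith
  · intro k
    by_cases hk : k = j
    · subst hk
      simp only [z'', hz']
      rw [Function.update_self, Function.update_self]
      linear_combination hεz - ε * htd
    · by_cases hk' : k = i
      · subst hk'
        simp only [z'', hz']
        rw [Function.update_of_ne hk, Function.update_of_ne hk, Function.update_self,
          Function.update_self]
        linear_combination htd
      · simp only [z'', hz']
        rw [Function.update_of_ne hk, Function.update_of_ne hk, Function.update_of_ne hk',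
          Function.update_of_ne hk']
        ring

end

theorem trans : S_TRANS := by
  classical
  intro n ρ h i x y hxi c hc hy hcx hyi
  -- the intermediate points
  have key : ∀ S : Finset (Fin n), i ∉ S →
      rr ρ (fun k => if k = i then x i + ∑ j ∈ S, c j * |x j| else
        if k ∈ S then (1 - c k) * x k else x k) ≤ rr ρ (fun k => x k) := by
    intro S
    induction S using Finset.induction_on with
    | empty =>
      intro _
      apply le_of_eq
      congr 1
      funext k
      by_cases hk : k = i
      · simp [hk]
      · simp [hk]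
    | insert j S hj ih =>
      intro hi
      rw [Finset.mem_insert, not_or] at hi
      have hji : j ≠ i := fun h => hi.1 h.symm
      refine le_trans ?_ (ih hi.2)
      have hsum : 0 ≤ ∑ j ∈ S, c j * |x j| :=
        Finset.sum_nonneg fun k _ => mul_nonneg (hc k).1 (abs_nonneg _)
      have ht := transfer h (fun k => if k = i then x i + ∑ j ∈ S, c j * |x j| else
        if k ∈ S then (1 - c k) * x k else x k) i j hji (c j) (hc j).1 (hc j).2 (by
          intro hcj
          simp only [if_neg hji, if_neg hj, if_true]
          have := hcx j hji hcj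
          linarith)
      refine le_trans (le_of_eq ?_) ht
      congr 1
      funext k
      by_cases hk : k = j
      · subst hk
        rw [Function.update_self]
        simp [hji, hj]
      · rw [Function.update_of_ne hk]
        by_cases hk' : k = i
        · subst hk'
          rw [Function.update_self]
          simp only [if_true, if_neg hji, if_neg hj, Finset.sum_insert hj]
          ring
        · rw [Function.update_of_ne hk']
          simp [hk, hk']
  have h1 := key (Finset.univ.erase i) (Finset.notMem_erase _ _)
  have h2 : rr ρ (fun k => y k) ≤ rr ρ (fun k => if k = i then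
      x i + ∑ j ∈ Finset.univ.erase i, c j * |x j| else
        if k ∈ Finset.univ.erase i then (1 - c k) * x k else x k) := by
    apply mono h
    intro k
    by_cases hk : k = i
    · subst hk
      simp only [if_true]
      have hsum : 0 ≤ ∑ j ∈ Finset.univ.erase k, c j * |x j| :=
        Finset.sum_nonneg fun k _ => mul_nonneg (hc k).1 (abs_nonneg _)
      rw [abs_of_nonneg (by linarith), abs_of_nonneg (by linarith)]
      exact hyi
    · have hm : k ∈ Finset.univ.erase i := Finset.mem_erase.2 ⟨hk, Finset.mem_univ _⟩
      simp only [if_neg hk, if_pos hm]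
      rw [hy k hk]
  exact h2.trans h1

end Pool.Agent.W724.SK
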